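import Pool.Agent.Lib.MP_c20824_pr.NonDeg

/-!
# The hyperbolic Poisson Voronoi graph is not anchored hyperbolic

Let `X` be a Poisson point process on the hyperbolic plane (upper half-plane model, curvature `-1`)
whose intensity measure is `lam` times hyperbolic area, `lam > 0`.  Almost surely, for every vertex
`x` of the dual graph of its Voronoi tessellation and every real `δ` there is a geodesic triangle
with three distinct vertices, one of which is `x`, that is not `δ`-thin.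
-/

namespace Pool.Agent.Results.MP_c20824_pr.NoAnchoredHyperbolicity

open Pool.Agent.Lib.MP_c20824_pr
open MeasureTheory ProbabilityTheory
open scoped UpperHalfPlane NNReal

lemma exists_scale (δ : ℕ) :
    ∃ j : ℕ, 3 ≤ j ∧ (12 * δ + 4) * (18 + 2 * j) + 1 < 2 * 2 ^ j := by
  refine ⟨2 * (12 * δ + 4) + 10, by omega, ?_⟩
  generalize 12 * δ + 4 = C
  have h : C < 2 ^ C := Nat.lt_two_pow_self
  have h2 : C * C ≤ 2 ^ C * 2 ^ C := Nat.mul_le_mul h.le h.le
  have h3 : 2 * 2 ^ (2 * C + 10) = 2048 * (2 ^ C * 2 ^ C) := by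
    rw [pow_add, two_mul C, pow_add]; ring
  have h4 : 1 ≤ 2 ^ C := Nat.one_le_two_pow
  have h5 : 2 ^ C ≤ 2 ^ C * 2 ^ C := by nlinarith
  rw [h3]
  nlinarith

/-- Almost surely the Poisson Voronoi graph has a vertex, and for every vertex `x` and every real
`δ` some geodesic triangle with distinct vertices `x`, `y`, `z` is not `δ`-thin. -/
theorem result {Ω : Type*} [MeasurableSpace Ω] (P : Measure Ω) [IsProbabilityMeasure P]
    (lam : ℝ≥0) (hlam : 0 < lam) (X : Ω → Set ℍ)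
    (hX : IsPoissonProcess P X (lam • (volume : Measure ℍ))) :
    ∀ᵐ ω ∂P, (X ω).Nonempty ∧ ∀ (x : X ω) (δ : ℝ),
      ∃ (y z : X ω) (p : (voronoiGraph (X ω)).Walk x y) (q : (voronoiGraph (X ω)).Walk y z)
        (r : (voronoiGraph (X ω)).Walk x z), x ≠ y ∧ y ≠ z ∧ x ≠ z ∧
        IsGeodesic p ∧ IsGeodesic q ∧ IsGeodesic r ∧ ¬ IsThin δ p q r := by
  choose j hj3 hj using exists_scale
  have h1 : ∀ m : ℕ, ∀ᵐ ω ∂P, ∃ k : ℕ, Patch (X ω) (4 * k) (160 * 2 ^ j m) := fun m =>
    hX.ae_exists_patch hlam (by positivity)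
  filter_upwards [hX.ae_locFin, ae_all_iff.mpr h1] with ω hfin hω
  refine ⟨?_, ?_⟩
  · obtain ⟨k, hk⟩ := hω 0
    have hpos : 0 < 3 * (160 * 2 ^ j 0) := by positivity
    obtain ⟨q, hq⟩ := Set.encard_eq_one.mp (hk 0 hpos 0 hpos)
    exact ⟨q, (hq.symm ▸ Set.mem_singleton q : q ∈ X ω ∩ _).1⟩
  · intro x δ
    by_contra hcon
    push Not at hcon
    obtain ⟨m, hm⟩ := exists_nat_ge δ
    obtain ⟨k, hk⟩ := hω m
    have hm0 : (0 : ℝ) ≤ m := Nat.cast_nonneg m
    have hthin : AnchoredThinND (voronoiGraph (X ω)) x m := fun y z p q r h1 h2 h3 hp hq hr =>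
      IsThin.mono (hcon y z p q r h1 h2 h3 hp hq hr) hm
    exact not_anchoredThin_of_patch hfin (hj3 m) hk (hj m) x (hthin.anchoredThin hm0)

end Pool.Agent.Results.MP_c20824_pr.NoAnchoredHyperbolicity
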